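import Pool.Agent.Y391.TB.Final

/-!
For every field with `m ^ 2` elements the size functions of the two classes differ at rank three:
their values are `m ^ 3` and `m ^ 3 + 1`.
-/

set_option autoImplicit false

namespace Pool.Agent.Results.MP_0e5d84_co.SquareOrder

open Pool.Agent.Helper236 Pool.Agent.Helper236.Size

/-- Negative answer: there are `q = |F|`, `k`, `n` with a strict inequality between the two size
functions. More precisely, for every finite field with `m ^ 2` elements, `k = 1` and `n = 3`, the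
value for the class `M(1; q)` is exactly `m ^ 3` and the value for the geometries without
supersolvable tangential `1`-blocks as minors is exactly `m ^ 3 + 1`. -/
theorem result :
    (∃ (F : Type) (_ : Field F) (_ : Finite F) (k n : ℕ), 1 ≤ k ∧ 1 ≤ n ∧
      sizeFn (InM F k) n < sizeFn (InExS F k) n) ∧
    ∀ (F : Type) [Field F] [Finite F] (m : ℕ), Nat.card F = m ^ 2 →
      sizeFn (InM F 1) 3 = m ^ 3 ∧ sizeFn (InExS F 1) 3 = m ^ 3 + 1 := by
  have h : ∀ (F : Type) [Field F] [Finite F] (m : ℕ), Nat.card F = m ^ 2 →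
      sizeFn (InM F 1) 3 = m ^ 3 ∧ sizeFn (InExS F 1) 3 = m ^ 3 + 1 := by
    intro F _ _ m hF
    exact ⟨Pool.Agent.Y391.TB.sizeFn_M hF, Pool.Agent.Y391.TB.sizeFn_ExS hF⟩
  refine ⟨⟨F4, inferInstance, inferInstance, 1, 3, le_refl 1, by norm_num, ?_⟩, h⟩
  obtain ⟨h1, h2⟩ := h F4 2 (by rw [nat_card_F4]; norm_num)
  rw [h1, h2]
  exact Nat.lt_succ_self _

end Pool.Agent.Results.MP_0e5d84_co.SquareOrder
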